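import Pool.Agent.N869.ZE.A.Stm
import Pool.Agent.N973.ND.BOX0
import Pool.Agent.N19.GB.Parts

/-!
# Project ZE (helper869), part A: the box for the 4-ranks (helper475)

Port of `Pool/Agent/N588/JL/BOX.lean` (helper588) and `Pool/Agent/N869/QT/BOXC.lean` to coloured sets of
primes over `ℚ`.
-/

set_option autoImplicit false
set_option linter.unusedVariables false
set_option linter.unusedSectionVars false

open scoped Classical

namespace Pool.Agent.N475.ZE.BOXK

open Finset
open Pool.Agent.Y703.CQ (nr sg)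
open Pool.Agent.N973.ND (uu)
open Pool.Agent.N916.GB (Po Gd ps HB S_EQ Vt sy)
open Pool.Agent.N869.QT.L (prs ext c2 Lc Fam)
open Pool.Agent.N869.QT.G (sys exC pr)
open Pool.Agent.N869.ZE
open Pool.Agent.N869.ZE.A

theorem z2_self (a : ZMod 2) : a + a = 0 := by
  revert a
  decide

theorem z2_swap {a b c : ZMod 2} (h : a + b = c) : b = a + c := by
  revert h
  revert a b c
  decide

theorem fcc {α : Type} {s : Finset α} {p q : α → Prop} {i1 : DecidablePred p}
    {i2 : DecidablePred q} (h : ∀ x ∈ s, (p x ↔ q x)) :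
    (@Finset.filter α p i1 s).card = (@Finset.filter α q i2 s).card := by
  congr 1
  ext x
  rw [Finset.mem_filter, Finset.mem_filter]
  exact and_congr_right fun hx => h x hx

theorem nr_recip {p q : ℕ} (hp : Po p) (hq : Po q) (hne : p ≠ q) :
    nr p q + nr q p = uu p * uu q := by
  rw [Pool.Agent.N973.ND.nr_rec hp.1 hp.2 hq.1 hq.2 hne, ← add_assoc, z2_self, zero_add]

/-- the label of a prime with respect to the primes in `T` -/
noncomputable def lb (T : Finset ℕ) (x : ℕ) : (T → ZMod 2) × ZMod 2 :=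
  (fun u => nr x u, uu x)

/-- extension by zero -/
noncomputable def ez0 {T : Finset ℕ} (v : T → ZMod 2) (n : ℕ) : ZMod 2 :=
  if h : n ∈ T then v ⟨n, h⟩ else 0

theorem ez0_coe {T : Finset ℕ} (v : T → ZMod 2) (u : T) : ez0 v u = v u := by
  unfold ez0
  rw [dif_pos u.2]

theorem sumW {S T : Finset ℕ} (hST : S ⊆ T) (h : ℕ → ZMod 2) :
    ∑ v ∈ univ.filter (fun u : T => (u : ℕ) ∈ S), h v = ∑ v ∈ S, h v := by
  rw [Finset.sum_filter,
    Finset.sum_coe_sort T (fun v => if v ∈ S then h v else 0), ← Finset.sum_filter]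
  congr 1
  ext x
  rw [Finset.mem_filter]
  exact ⟨fun h => h.2, fun h => ⟨hST h, h⟩⟩

section base

variable {ι : Type} [Fintype ι] [LinearOrder ι] {S T : Finset ℕ} {L : Finset ι} {p : ι → ℕ}

omit [Fintype ι] [LinearOrder ι] in
theorem cs_sw (hpr : ∀ i, Po (p i)) (hT : ∀ u ∈ T, Po u) (hd : ∀ i, p i ∉ T) (k : ι) {u : ℕ}
    (hu : u ∈ T) : nr u (p k) = nr (p k) u + uu u * uu (p k) := by
  have hne : p k ≠ u := fun h => hd k (by rw [h]; exact hu)
  have h := nr_recip (hpr k) (hT u hu) hne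
  rw [z2_swap h, mul_comm]

omit [Fintype ι] [LinearOrder ι] in
theorem sum_un (hp : Function.Injective p) (hd : ∀ i, p i ∉ S) (f : ℕ → ZMod 2) :
    ∑ x ∈ S ∪ L.image p, f x = ∑ u ∈ S, f u + ∑ l ∈ L, f (p l) := by
  rw [Finset.sum_union, Finset.sum_image (fun a _ b _ h => hp h)]
  rw [Finset.disjoint_left]
  intro x hx hx'
  rw [Finset.mem_image] at hx'
  obtain ⟨i, -, rfl⟩ := hx'
  exact hd i hx

theorem ext_term (hp : Function.Injective p) (hpr : ∀ i, Po (p i)) (k l : ι) (d : ι → ZMod 2) :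
    ext (fun i => uu (p i)) (fun e : prs ι => nr (p e.1.1) (p e.1.2)) k l * (d k + d l) =
      nr (p l) (p k) * (d k + d l) := by
  by_cases hlk : l = k
  · rw [hlk, z2_self, mul_zero, mul_zero]
  congr 1
  unfold Pool.Agent.N869.QT.L.ext
  by_cases h : (l, k) ∈ prs ι
  · rw [dif_pos h]
  · rw [dif_neg h]
    have h2 : (k, l) ∈ prs ι := by
      unfold prs at h ⊢
      rw [Finset.mem_filter] at h ⊢
      refine ⟨Finset.mem_univ _, ?_⟩
      rcases lt_trichotomy k l with h1 | h1 | h1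
      · exact h1
      · exact absurd h1.symm hlk
      · exact absurd ⟨Finset.mem_univ _, h1⟩ h
    rw [dif_pos h2]
    have h3 := nr_recip (hpr k) (hpr l) (fun h => hlk (hp h).symm)
    exact (z2_swap h3).symm

/-- the good sets, with the variables in the order of the block systems -/
theorem gd_sol {S : Finset ℕ} (hS : ∀ u ∈ S, Po u) : Gd false 0 0 S ↔
    ∀ x : ℕ → ZMod 2, (∀ q ∈ S, ∑ v ∈ S, nr v q * (x q + x v) = 0) →
      ∀ a ∈ S, ∀ b ∈ S, x a = x b := by
  unfold Gd
  have hV : Vt false S = S := by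
    unfold Vt
    rw [if_neg (by decide)]
  rw [hV]
  have e1 : ∀ (x : ℕ → ZMod 2) (q : ℕ), ∑ v ∈ S, (x v + x q) * sy 0 0 q v =
      ∑ v ∈ S, nr v q * (x q + x v) := by
    intro x q
    refine Finset.sum_congr rfl fun v hv => ?_
    unfold sy
    rw [if_neg (hS v hv).2, add_comm (x v), mul_comm]
  simp only [e1]

/-- the systems of a set and of the blocks -/
theorem gd_iff (hST : S ⊆ T) (hp : Function.Injective p) (hpr : ∀ i, Po (p i))
    (hT : ∀ u ∈ T, Po u) (hd : ∀ i, p i ∉ T) :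
    Gd false 0 0 (S ∪ L.image p) ↔ GdK (univ.filter fun u : T => (u : ℕ) ∈ S) L
      (fun u : T => uu u) (fun i => uu (p i)) (fun u v : T => nr v u) (fun (u : T) l => nr (p l) u)
      (ext (fun i => uu (p i)) fun e : prs ι => nr (p e.1.1) (p e.1.2)) := by
  have hS₀ : ∀ u ∈ S, Po u := fun u hu => hT u (hST hu)
  have hd0 : ∀ i, p i ∉ S := fun i h => hd i (hST h)
  have hS : ∀ u ∈ S ∪ L.image p, Po u := by
    intro u hu
    rw [Finset.mem_union, Finset.mem_image] at hu
    rcases hu with hu | ⟨i, -, rfl⟩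
    · exact hS₀ u hu
    · exact hpr i
  have hsol : ∀ c : ℕ → ZMod 2, (∀ q ∈ S ∪ L.image p,
        ∑ v ∈ S ∪ L.image p, nr v q * (c q + c v) = 0) ↔
      (∀ u ∈ univ.filter (fun u : T => (u : ℕ) ∈ S),
        ∑ v ∈ univ.filter (fun u : T => (u : ℕ) ∈ S), nr v u * (c u + c v) +
        ∑ l ∈ L, nr (p l) u * (c u + c (p l)) = 0) ∧
      (∀ k ∈ L, ∑ u ∈ univ.filter (fun u : T => (u : ℕ) ∈ S),
          (nr (p k) u + uu u * uu (p k)) * (c (p k) + c u) +
        ∑ l ∈ L, ext (fun i => uu (p i))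
          (fun e : prs ι => nr (p e.1.1) (p e.1.2)) k l * (c (p k) + c (p l)) = 0) := by
    intro c
    have hsym : ∀ k : ι, ∑ u ∈ S, nr u (p k) * (c (p k) + c u) =
        ∑ u ∈ S, (nr (p k) u + uu u * uu (p k)) * (c (p k) + c u) := by
      intro k
      refine Finset.sum_congr rfl fun u hu => ?_
      rw [cs_sw hpr hS₀ hd0 k hu]
    have hex : ∀ k : ι, ∑ l ∈ L, ext (fun i => uu (p i))
          (fun e : prs ι => nr (p e.1.1) (p e.1.2)) k l * (c (p k) + c (p l)) =
        ∑ l ∈ L, nr (p l) (p k) * (c (p k) + c (p l)) := fun k =>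
      Finset.sum_congr rfl fun l _ => ext_term hp hpr k l (fun l => c (p l))
    constructor
    · intro h
      refine ⟨fun u hu => ?_, fun k hk => ?_⟩
      · have := h u (Finset.mem_union_left _ (Finset.mem_filter.1 hu).2)
        rw [sum_un hp hd0] at this
        rw [sumW hST (fun v => nr v u * (c u + c v))]
        exact this
      · have := h (p k) (Finset.mem_union_right _ (Finset.mem_image_of_mem _ hk))
        rw [sum_un hp hd0, hsym] at this
        rw [hex k, sumW hST (fun u => (nr (p k) u + uu u * uu (p k)) * (c (p k) + c u))]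
        exact this
    · rintro ⟨h1, h2⟩ x hx
      rw [sum_un hp hd0]
      rw [Finset.mem_union, Finset.mem_image] at hx
      rcases hx with hx | ⟨k, hk, rfl⟩
      · have := h1 ⟨x, hST hx⟩ (Finset.mem_filter.2 ⟨Finset.mem_univ _, hx⟩)
        rw [sumW hST (fun v => nr v x * (c x + c v))] at this
        exact this
      · have := h2 k hk
        rw [hex k, sumW hST (fun u => (nr (p k) u + uu u * uu (p k)) * (c (p k) + c u))] at this
        rw [hsym]
        exact this
  rw [gd_sol hS]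
  unfold GdK
  constructor
  · intro h c d h1 h2
    obtain ⟨c', hc'⟩ : ∃ c' : ℕ → ZMod 2, ∀ n, c' n = if h : n ∈ T then c ⟨n, h⟩ else
      if h : ∃ l, p l = n then d h.choose else 0 := ⟨_, fun n => rfl⟩
    have e1 : ∀ u : T, c' u = c u := by
      intro u
      rw [hc', dif_pos u.2]
    have e2 : ∀ l, c' (p l) = d l := by
      intro l
      have hex : ∃ l', p l' = p l := ⟨l, rfl⟩
      rw [hc', dif_neg (hd l), dif_pos hex]
      exact congrArg d (hp hex.choose_spec)
    have h3 := h c' (by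
      rw [hsol]
      refine ⟨fun u hu => ?_, fun k hk => ?_⟩
      · simp only [e1, e2]
        exact h1 u hu
      · simp only [e1, e2]
        exact h2 k hk)
    have m1 : ∀ u ∈ univ.filter (fun u : T => (u : ℕ) ∈ S), (u : ℕ) ∈ S ∪ L.image p :=
      fun u hu => Finset.mem_union_left _ (Finset.mem_filter.1 hu).2
    have m2 : ∀ k ∈ L, p k ∈ S ∪ L.image p :=
      fun k hk => Finset.mem_union_right _ (Finset.mem_image_of_mem _ hk)
    refine ⟨fun u hu v hv => ?_, fun u hu l hl => ?_, fun k hk l hl => ?_⟩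
    · rw [← e1, ← e1]
      exact h3 _ (m1 u hu) _ (m1 v hv)
    · rw [← e1, ← e2]
      exact h3 _ (m1 u hu) _ (m2 l hl)
    · rw [← e2, ← e2]
      exact h3 _ (m2 k hk) _ (m2 l hl)
  · intro h c hc
    rw [hsol] at hc
    obtain ⟨ht1, ht2, ht3⟩ := h (fun u => c u) (fun l => c (p l)) (fun u hu => hc.1 u hu)
      (fun k hk => hc.2 k hk)
    intro a ha b hb
    rw [Finset.mem_union, Finset.mem_image] at ha hb
    have m1 : ∀ u (hu : u ∈ S), (⟨u, hST hu⟩ : T) ∈ univ.filter (fun u : T => (u : ℕ) ∈ S) :=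
      fun u hu => Finset.mem_filter.2 ⟨Finset.mem_univ _, hu⟩
    rcases ha with ha | ⟨k, hk, rfl⟩
    · rcases hb with hb | ⟨l, hl, rfl⟩
      · exact ht1 _ (m1 a ha) _ (m1 b hb)
      · exact ht2 _ (m1 a ha) l hl
    · rcases hb with hb | ⟨l, hl, rfl⟩
      · exact (ht2 _ (m1 b hb) k hk).symm
      · exact ht3 k hk l hl

end base

section one

variable {I Q : Type} {E : I → Finset Q} {γ : ℕ → Q} {S₀ F : Finset ℕ}
  {ι : Type} [Fintype ι] [LinearOrder ι] {p : ι → ℕ} {g : ι → Q}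

/-- the small and fixed primes of the system `a` -/
noncomputable def Wc (γ : ℕ → Q) (E : I → Finset Q) (S₀ F : Finset ℕ) (a : I) :
    Finset (S₀ ∪ F : Finset ℕ) :=
  univ.filter fun u => (u : ℕ) ∈ sys γ E S₀ a ∪ F

theorem sub_T (a : I) : sys γ E S₀ a ∪ F ⊆ S₀ ∪ F :=
  Finset.union_subset_union_left (Finset.filter_subset _ _)

omit [LinearOrder ι] in
theorem sys_un (hg : ∀ k, γ (p k) = g k) (a : I) :
    sys γ E (S₀ ∪ univ.image p) a ∪ F = (sys γ E S₀ a ∪ F) ∪ (Lc E g a).image p := by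
  have e1 : sys γ E (S₀ ∪ univ.image p) a = sys γ E S₀ a ∪ (Lc E g a).image p := by
    unfold sys Lc
    rw [Finset.filter_union]
    congr 1
    ext x
    rw [Finset.mem_filter, Finset.mem_image, Finset.mem_image]
    constructor
    · rintro ⟨⟨k, -, rfl⟩, h⟩
      exact ⟨k, Finset.mem_filter.2 ⟨Finset.mem_univ _, by rw [← hg]; exact h⟩, rfl⟩
    · rintro ⟨k, hk, rfl⟩
      exact ⟨⟨k, Finset.mem_univ _, rfl⟩, by rw [hg]; exact (Finset.mem_filter.1 hk).2⟩
  rw [e1, Finset.union_right_comm]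

/-- the label condition -/
def LNK (K : ℕ) (T : Finset ℕ) (g : ι → Q) (β : ι → (T → ZMod 2) × ZMod 2) : Prop :=
  ∀ q : Q, (∀ w : T → ZMod 2, (∃ u, w u ≠ 0) →
    ∃ k, g k = q ∧ (β k).2 = 0 ∧ ∑ u, w u * (β k).1 u ≠ 0) ∧
  K * (T.card + Nat.log 2 (Fintype.card ι) + 1) ≤ (univ.filter fun k => g k = q ∧ (β k).2 = 1).card

omit [LinearOrder ι] in
theorem ndK_iff (hp : Function.Injective p) (hg : ∀ k, γ (p k) = g k) (K : ℕ) :
    NdK F K γ S₀ (univ.image p) ↔ LNK K (S₀ ∪ F) g (fun i => lb (S₀ ∪ F) (p i)) := by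
  unfold NdK LNK
  refine forall_congr' fun q => and_congr ?_ ?_
  · have e2 : ∀ (w : ℕ → ZMod 2) (i : ι),
        ∑ u ∈ S₀ ∪ F, w u * nr (p i) u =
          ∑ u : (S₀ ∪ F : Finset ℕ), w u * (lb (S₀ ∪ F) (p i)).1 u := by
      intro w i
      rw [← Finset.sum_coe_sort (S₀ ∪ F)]
      rfl
    constructor
    · intro h w hw
      have hw' : ∃ u ∈ S₀ ∪ F, ez0 w u ≠ 0 := by
        obtain ⟨u, hu⟩ := hw
        exact ⟨u, u.2, by rw [ez0_coe]; exact hu⟩
      obtain ⟨x, hx, hx0, hx1, hx2⟩ := h (ez0 w) hw'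
      rw [Finset.mem_image] at hx
      obtain ⟨i, -, rfl⟩ := hx
      rw [e2] at hx2
      simp only [ez0_coe] at hx2
      exact ⟨i, by rw [← hg]; exact hx0, hx1, hx2⟩
    · intro h w hw
      have hw' : ∃ u : (S₀ ∪ F : Finset ℕ), (fun u : (S₀ ∪ F : Finset ℕ) => w u) u ≠ 0 := by
        obtain ⟨u, hu0, hu⟩ := hw
        exact ⟨⟨u, hu0⟩, hu⟩
      obtain ⟨i, hi0, hi1, hi2⟩ := h (fun u => w u) hw'
      refine ⟨p i, Finset.mem_image_of_mem _ (Finset.mem_univ _), by rw [hg]; exact hi0, hi1, ?_⟩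
      rw [e2]
      exact hi2
  · have e1 : (univ.image p).card = Fintype.card ι := by
      rw [Finset.card_image_of_injective _ hp, Finset.card_univ]
    have e2 : ((univ.image p).filter fun π => γ π = q ∧ uu π = 1).card =
        (univ.filter fun k => g k = q ∧ (lb (S₀ ∪ F) (p k)).2 = 1).card := by
      rw [Finset.filter_image, Finset.card_image_of_injective _ hp]
      congr 1
      ext k
      rw [Finset.mem_filter, Finset.mem_filter, hg]
      exact Iff.rfl
    rw [e1, e2]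

end one

theorem HB_sub {ι : Type} {C : ι → Finset ℕ} {X : ι → ℕ} {κ : ℝ}
    (h : HB C X κ) (P : ι → ℕ → Prop) [∀ i, DecidablePred (P i)] :
    HB (fun i => (C i).filter (P i)) X κ := by
  intro i l hil c d hc hd
  have h1 := h i l hil (fun x => if P i x then c x else 0) (fun y => if P l y then d y else 0)
    (fun x => by
      split_ifs
      · exact hc x
      · simp) (fun y => by
      split_ifs
      · exact hd y
      · simp)
  refine (le_of_eq ?_).trans h1
  congr 1
  rw [Finset.sum_filter]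
  refine Finset.sum_congr rfl fun x _ => ?_
  by_cases hx : P i x
  · rw [if_pos hx, Finset.sum_filter]
    refine Finset.sum_congr rfl fun y _ => ?_
    by_cases hy : P l y
    · rw [if_pos hy, if_pos hx, if_pos hy]
    · rw [if_neg hy, if_neg hy, mul_zero, zero_mul]
  · rw [if_neg hx]
    symm
    refine Finset.sum_eq_zero fun y _ => ?_
    rw [if_neg hx, zero_mul, zero_mul]

theorem card_ps (ι : Type) [Fintype ι] [LinearOrder ι] :
    (ps ι).card ≤ Fintype.card ι * Fintype.card ι := by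
  have h1 : (ps ι).card ≤ Fintype.card (ι × ι) := Finset.card_le_univ _
  rwa [Fintype.card_prod] at h1

theorem expo (s f t n c : ℕ) (ht : t ≤ s + f) (hc : c ≤ n * n) :
    (t + 1) * n + c ≤ (f + 2) * (s + n + 1) ^ 2 := by
  have h1 : (t + 1) * n ≤ (f + 1) * (s + n + 1) ^ 2 := by
    have h2 : t + 1 ≤ (f + 1) * (s + n + 1) := by nlinarith [Nat.zero_le (f * s), Nat.zero_le (f * n)]
    calc (t + 1) * n ≤ ((f + 1) * (s + n + 1)) * (s + n + 1) :=
          Nat.mul_le_mul h2 (by omega)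
      _ = _ := by ring
  have h3 : n * n ≤ (s + n + 1) ^ 2 := by
    rw [sq]
    exact Nat.mul_le_mul (by omega) (by omega)
  calc (t + 1) * n + c ≤ (f + 1) * (s + n + 1) ^ 2 + (s + n + 1) ^ 2 := by omega
    _ = _ := by ring

/-- **The joint count in a box.** -/
theorem t_BOXK : S_BOXK := by
  intro I Q _ _ E hE F hF hdist ε K hLA
  refine ⟨F.card + 2, ?_⟩
  intro V _ lv P0 hOk γ
  obtain ⟨G, hG⟩ : ∃ G : Finset ℕ → Prop, G = fun S => ∀ a, GdF F (sys γ E S a) := ⟨_, rfl⟩
  rw [← hG]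
  intro ι _ _ τ C X κ S₀ hκ hCX hPair hS₀ hC hdis hhyp
  have hEQ : S_EQ := Pool.Agent.N19.GB.t_EQ
  have hHB : HB C X κ := hPair
  obtain ⟨R, hR⟩ : ∃ R : ℝ, R = 2 ^ (ps ι).card * (κ * ∏ j, (X j : ℝ)) := ⟨_, rfl⟩
  have hX0 : 0 ≤ κ * ∏ j, (X j : ℝ) :=
    mul_nonneg hκ (Finset.prod_nonneg fun j _ => by positivity)
  have hR0 : 0 ≤ R := by
    rw [hR]
    exact mul_nonneg (by positivity) hX0
  -- the colours
  obtain ⟨g, hgd⟩ : ∃ g : ι → Q, g = fun i => (τ i).1 := ⟨_, rfl⟩
  have hT : ∀ u ∈ S₀ ∪ F, Po u := by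
    intro u hu
    rw [Finset.mem_union] at hu
    rcases hu with hu | hu
    · exact hS₀ u hu
    · exact hF u hu
  -- facts on tuples
  have hinj : ∀ p ∈ Fintype.piFinset C, Function.Injective p := by
    intro p hp i j hij
    rw [Fintype.mem_piFinset] at hp
    by_contra hne
    have h1 := Finset.disjoint_left.1 (hdis i j hne) (hp i)
    rw [hij] at h1
    exact h1 (hp j)
  have hpr : ∀ p ∈ Fintype.piFinset C, ∀ i, Po (p i) := by
    intro p hp i
    rw [Fintype.mem_piFinset] at hp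
    exact (hC i _ (hp i)).1
  have hOk' : ∀ p ∈ Fintype.piFinset C, Disjoint (S₀ ∪ univ.image p) F ∧
      ∀ a, ∑ x ∈ sys γ E (S₀ ∪ univ.image p) a, uu x + ∑ x ∈ F, uu x = 1 := by
    intro p hp
    refine hOk γ _ (fun x hx => ?_) (hhyp p hp)
    rw [Finset.mem_union, Finset.mem_image] at hx
    rcases hx with hx | ⟨i, -, rfl⟩
    · exact hS₀ x hx
    · exact hpr p hp i
  have hd0 : ∀ p ∈ Fintype.piFinset C, ∀ i, p i ∉ S₀ := by
    intro p hp i
    rw [Fintype.mem_piFinset] at hp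
    exact (hC i _ (hp i)).2.1
  have hd : ∀ p ∈ Fintype.piFinset C, ∀ i, p i ∉ S₀ ∪ F := by
    intro p hp i hi
    rw [Finset.mem_union] at hi
    rcases hi with hi | hi
    · exact hd0 p hp i hi
    · exact Finset.disjoint_left.1 (hOk' p hp).1 (Finset.mem_union_right _
        (Finset.mem_image_of_mem _ (Finset.mem_univ i))) hi
  have hg : ∀ p ∈ Fintype.piFinset C, ∀ i, γ (p i) = g i := by
    intro p hp i
    rw [Fintype.mem_piFinset] at hp
    rw [hgd]
    exact congrArg Prod.fst (hC i _ (hp i)).2.2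
  -- the part with given labels
  have h1 : ∀ β : ι → ((S₀ ∪ F : Finset ℕ) → ZMod 2) × ZMod 2, LNK K (S₀ ∪ F) g β →
      |(((Fintype.piFinset C).filter fun p => (fun i => lb (S₀ ∪ F) (p i)) = β ∧
          G (S₀ ∪ univ.image p)).card : ℝ) -
        c2 ^ Fintype.card I *
          (((Fintype.piFinset C).filter fun p => (fun i => lb (S₀ ∪ F) (p i)) = β).card : ℝ)| ≤
      ε * (((Fintype.piFinset C).filter fun p =>
        (fun i => lb (S₀ ∪ F) (p i)) = β).card : ℝ) + R := by
    intro β hβ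
    by_cases hex : ∃ p ∈ Fintype.piFinset C, (fun i => lb (S₀ ∪ F) (p i)) = β
    swap
    · have e1 : ((Fintype.piFinset C).filter fun p =>
          (fun i => lb (S₀ ∪ F) (p i)) = β) = ∅ := by
        rw [Finset.filter_eq_empty_iff]
        intro p hp h
        exact hex ⟨p, hp, h⟩
      have e2 : ((Fintype.piFinset C).filter fun p => (fun i => lb (S₀ ∪ F) (p i)) = β ∧
          G (S₀ ∪ univ.image p)) = ∅ := by
        rw [Finset.filter_eq_empty_iff]
        rintro p hp ⟨h, -⟩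
        exact hex ⟨p, hp, h⟩
      rw [e1, e2, Finset.card_empty, Nat.cast_zero, mul_zero, mul_zero, sub_zero, abs_zero,
        zero_add]
      exact hR0
    obtain ⟨q₀, hq₀, hq₀β⟩ := hex
    have hc2 := hOk' q₀ hq₀
    have hdisj : Disjoint S₀ F := Finset.disjoint_of_subset_left Finset.subset_union_left hc2.1
    obtain ⟨C', hC'⟩ : ∃ C' : ι → Finset ℕ,
        C' = fun i => (C i).filter fun q => lb (S₀ ∪ F) q = β i := ⟨_, rfl⟩
    have hpi : (Fintype.piFinset C).filter (fun p => (fun i => lb (S₀ ∪ F) (p i)) = β) =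
        Fintype.piFinset C' := by
      ext p
      simp only [Finset.mem_filter, Fintype.mem_piFinset, hC']
      constructor
      · rintro ⟨h2, h3⟩ i
        exact ⟨h2 i, congrFun h3 i⟩
      · intro h2
        exact ⟨fun i => (h2 i).1, funext fun i => (h2 i).2⟩
    have htt : ∀ i, (β i).2 = uu (q₀ i) := by
      intro i
      rw [← hq₀β]
      rfl
    have hH : HypK K (fun a : I => Wc γ E S₀ F a) E g (fun u : (S₀ ∪ F : Finset ℕ) => uu u)
        (fun i => (β i).2) (fun u v : (S₀ ∪ F : Finset ℕ) => nr v u)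
        (fun (u : (S₀ ∪ F : Finset ℕ)) l => (β l).1 u) := by
      constructor
      · intro q
        rw [Fintype.card_coe]
        exact (hβ q).2
      · intro a
        simp only [htt]
        have h3 := hc2.2 a
        have e1 : ∑ x ∈ sys γ E (S₀ ∪ univ.image q₀) a, uu x =
            ∑ x ∈ sys γ E S₀ a, uu x + ∑ l ∈ Lc E g a, uu (q₀ l) := by
          have e2 : sys γ E (S₀ ∪ univ.image q₀) a = sys γ E S₀ a ∪ (Lc E g a).image q₀ := by
            have := sys_un (E := E) (S₀ := S₀) (F := ∅) (hg q₀ hq₀) a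
            rwa [Finset.union_empty, Finset.union_empty] at this
          rw [e2]
          exact sum_un (hinj q₀ hq₀) (fun i hi => hd0 q₀ hq₀ i (Finset.mem_filter.1 hi).1) uu
        have e3 : ∑ u ∈ Wc γ E S₀ F a, uu (u : ℕ) =
            ∑ x ∈ sys γ E S₀ a, uu x + ∑ x ∈ F, uu x := by
          unfold Wc
          rw [sumW (sub_T a) uu]
          exact Finset.sum_union (Finset.disjoint_of_subset_left (Finset.filter_subset _ _) hdisj)
        rw [e1] at h3
        rw [e3, ← h3]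
        ring
      · intro u v huv
        have h3 := nr_recip (hT u u.2) (hT v v.2) (fun h => huv (Subtype.ext h))
        rw [← h3, add_comm]
      · intro q w hw
        exact (hβ q).1 w hw
      · rcases hdist with ⟨u, hu, hu1⟩ | h
        · refine Or.inl ⟨⟨u, Finset.mem_union_right _ hu⟩, hu1, fun a => ?_⟩
          unfold Wc
          rw [Finset.mem_filter]
          exact ⟨Finset.mem_univ _, Finset.mem_union_right _ hu⟩
        · exact Or.inr h
    have h2 := hLA (S₀ ∪ F : Finset ℕ) ι (fun a : I => Wc γ E S₀ F a) g _ _ _ _ hH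
    obtain ⟨P, hP⟩ : ∃ P : (ps ι → ZMod 2) → Prop, P = fun α => ∀ a : I,
        GdK (Wc γ E S₀ F a) (Lc E g a) (fun u : (S₀ ∪ F : Finset ℕ) => uu u)
          (fun i => (β i).2)
          (fun u v : (S₀ ∪ F : Finset ℕ) => nr v u)
          (fun (u : (S₀ ∪ F : Finset ℕ)) l => (β l).1 u)
          (ext (fun i => (β i).2) α) := ⟨_, rfl⟩
    have h3 := hEQ ι C' X κ hκ
      (fun i => (Finset.card_le_card (by rw [hC']; exact Finset.filter_subset _ _)).trans (hCX i))
      (by rw [hC']; exact HB_sub hHB fun i q => lb (S₀ ∪ F) q = β i) P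
    have h4 : ((Fintype.piFinset C).filter fun p => (fun i => lb (S₀ ∪ F) (p i)) = β ∧
        G (S₀ ∪ univ.image p)) = ((Fintype.piFinset C').filter fun p =>
          P fun e => nr (p e.1.1) (p e.1.2)) := by
      rw [← hpi, Finset.filter_filter]
      refine Finset.filter_congr fun p hp => ?_
      refine and_congr_right fun hl => ?_
      rw [hP, hG]
      refine forall_congr' fun a => ?_
      unfold GdF
      rw [sys_un (hg p hp) a, gd_iff (sub_T a) (hinj p hp) (hpr p hp) hT (hd p hp)]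
      subst hl
      exact Iff.rfl
    have h5 : (((Fintype.piFinset C').card : ℕ) : ℝ) = ∏ j, ((C' j).card : ℝ) := by
      rw [Fintype.card_piFinset]
      push_cast
      rfl
    rw [h4, hpi, h5]
    rw [← hR] at h3
    obtain ⟨n, hn⟩ : ∃ n : ℝ, n = (((Fintype.piFinset C').filter fun p =>
          P fun e => nr (p e.1.1) (p e.1.2)).card : ℝ) := ⟨_, rfl⟩
    obtain ⟨q, hq⟩ : ∃ q : ℝ, q = ((univ.filter P).card : ℝ) / 2 ^ (ps ι).card := ⟨_, rfl⟩
    obtain ⟨Pr, hPr⟩ : ∃ Pr : ℝ, Pr = ∏ j, ((C' j).card : ℝ) := ⟨_, rfl⟩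
    obtain ⟨c, hc⟩ : ∃ c : ℝ, c = c2 ^ Fintype.card I := ⟨_, rfl⟩
    have hP0 : 0 ≤ Pr := by
      rw [hPr]
      exact Finset.prod_nonneg fun j _ => by positivity
    have e8 : ∀ n1 n2 : ℕ, n1 = n2 →
        |(n2 : ℝ) / 2 ^ (prs ι).card - c2 ^ Fintype.card I| ≤ ε →
        |(n1 : ℝ) / 2 ^ (ps ι).card - c2 ^ Fintype.card I| ≤ ε := by
      rintro n1 n2 rfl h
      exact h
    have h2' : |q - c| ≤ ε := by
      rw [hq, hP, hc]
      exact e8 _ _ (fcc fun x _ => Iff.rfl) h2
    rw [← hn, ← hq, ← hPr] at h3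
    rw [← hn, ← hPr, ← hc]
    have h6 : |n - c * Pr| ≤ |n - q * Pr| + |q - c| * Pr := by
      have h7 : n - c * Pr = (n - q * Pr) + (q - c) * Pr := by ring
      have h8 : |(q - c) * Pr| = |q - c| * Pr := by rw [abs_mul, abs_of_nonneg hP0]
      rw [h7, ← h8]
      exact abs_add_le _ _
    have h7 : |q - c| * Pr ≤ ε * Pr := mul_le_mul_of_nonneg_right h2' hP0
    linarith
  -- sum over the labels
  obtain ⟨LL, hLL⟩ : ∃ LL : Finset (ι → ((S₀ ∪ F : Finset ℕ) → ZMod 2) × ZMod 2),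
      LL = univ.filter (fun β => LNK K (S₀ ∪ F) g β) := ⟨_, rfl⟩
  have hfib : ∀ T : (ι → ℕ) → Prop,
      (((Fintype.piFinset C).filter fun p => NdK F K γ S₀ (univ.image p) ∧ T p).card : ℝ) =
      ∑ β ∈ LL, (((Fintype.piFinset C).filter fun p =>
        (fun i => lb (S₀ ∪ F) (p i)) = β ∧ T p).card : ℝ) := by
    intro T
    rw [Finset.card_eq_sum_card_fiberwise (f := fun (p : ι → ℕ) (i : ι) => lb (S₀ ∪ F) (p i))
      (t := LL) (by
        intro p hp
        rw [Finset.mem_coe, Finset.mem_filter] at hp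
        rw [Finset.mem_coe, hLL, Finset.mem_filter]
        exact ⟨Finset.mem_univ _, (ndK_iff (hinj p hp.1) (hg p hp.1) K).1 hp.2.1⟩)]
    push_cast
    refine Finset.sum_congr rfl fun β hβ => ?_
    rw [hLL, Finset.mem_filter] at hβ
    congr 2
    ext p
    simp only [Finset.mem_filter]
    constructor
    · rintro ⟨⟨h3, h4, h4'⟩, h5⟩
      exact ⟨h3, h5, h4'⟩
    · rintro ⟨h3, h4, h5⟩
      refine ⟨⟨h3, ?_, h5⟩, h4⟩
      rw [ndK_iff (hinj p h3) (hg p h3) K, h4]
      exact hβ.2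
  have hf1 := hfib fun p => G (S₀ ∪ univ.image p)
  have hf2 := hfib fun _ => True
  simp only [and_true] at hf2
  rw [hf1, hf2, Finset.mul_sum, ← Finset.sum_sub_distrib]
  have hLm : ∀ β ∈ LL, LNK K (S₀ ∪ F) g β := by
    intro β hβ
    rw [hLL] at hβ
    exact (Finset.mem_filter.1 hβ).2
  have hs := Finset.sum_le_sum fun β hβ => h1 β (hLm β hβ)
  refine (Finset.abs_sum_le_sum_abs _ _).trans (hs.trans ?_)
  rw [Finset.sum_add_distrib, ← Finset.mul_sum, Finset.sum_const, nsmul_eq_mul]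
  have h5 : ((LL.card : ℕ) : ℝ) ≤ 2 ^ (((S₀ ∪ F).card + 1) * Fintype.card ι) := by
    have h6 : LL.card ≤ Fintype.card (ι → ((S₀ ∪ F : Finset ℕ) → ZMod 2) × ZMod 2) :=
      Finset.card_le_univ _
    rw [Fintype.card_fun, Fintype.card_prod, Fintype.card_fun, ZMod.card,
      Fintype.card_coe] at h6
    have h7 : 2 ^ (S₀ ∪ F).card * 2 = 2 ^ ((S₀ ∪ F).card + 1) := by ring
    rw [h7, ← pow_mul] at h6
    exact_mod_cast h6
  have h6 := mul_le_mul_of_nonneg_right h5 hR0
  have h7 : (2 : ℝ) ^ (((S₀ ∪ F).card + 1) * Fintype.card ι) * R ≤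
      2 ^ ((F.card + 2) * (S₀.card + Fintype.card ι + 1) ^ 2) * (κ * ∏ j, (X j : ℝ)) := by
    rw [hR, ← mul_assoc, ← pow_add]
    refine mul_le_mul_of_nonneg_right ?_ hX0
    exact pow_le_pow_right₀ one_le_two
      (expo S₀.card F.card _ _ _ (Finset.card_union_le _ _) (card_ps ι))
  linarith

end Pool.Agent.N475.ZE.BOXK
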